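import Pool.Agent.Work.MP_6c3bcd_an.Bd.B06
import Pool.Agent.Work.MP_6c3bcd_an.Bd.B05

universe u v w

namespace Pool.Agent.Work.MP_6c3bcd_an.Dn

open Set Topology Metric

/-- The extension theorem for density at most `ℵ₃`, from the lemmas. -/
theorem assemblyC (hMaps : claimMaps.{w}) (hMain : claimMain.{w, v, max v w})
    (hCnt : claimCnt.{w, v, max v w})
    (hRed : claimRedC.{v, w})
    (hTTF : claimTTF.{w, v, w}) (hExh : claimExh.{w, v, w})
    {𝕜 : Type v} [RCLike 𝕜] {X : Type w} [NormedAddCommGroup X] [NormedSpace 𝕜 X]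
    [CompleteSpace X]
    {Y : Submodule 𝕜 (StrongDual 𝕜 X)} {Φ : Y → Set X} (hΦ : IsProjectionalGenerator Y Φ)
    (hX : ∃ s : Set X, Dense s ∧ Cardinal.mk s ≤ Cardinal.aleph 3) :
    ∃ Ψ : hull Y → Set X, IsProjectionalGenerator (hull Y) Ψ ∧
      ∀ y : Y, Ψ ⟨y, le_hull Y y.2⟩ = Φ y := by
  obtain ⟨c, hc, nm, hnm⟩ := exists_norming_functional hΦ.norming
  obtain ⟨I, J, K, hI, hJ, hK, m, hwI, hwJ, hwK, hcard⟩ := hMaps
  obtain ⟨e, he⟩ : ∃ e : I → X, DenseRange e := by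
    obtain ⟨s, hs, hcs⟩ := hX
    rw [← hcard] at hcs
    obtain ⟨emb⟩ := hcs
    obtain ⟨a₀, ha₀⟩ : s.Nonempty := hs.nonempty
    have _ : Nonempty s := ⟨⟨a₀, ha₀⟩⟩
    refine ⟨fun i => ((Function.invFun emb i : s) : X), ?_⟩
    have hsurj : Function.Surjective (Function.invFun emb) :=
      Function.invFun_surjective emb.injective
    intro x
    refine closure_mono ?_ (hs x)
    intro y hy
    obtain ⟨i, hi⟩ := hsurj ⟨y, hy⟩
    exact ⟨i, by simp [hi]⟩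
  obtain ⟨hcl, hmono, hctbl, hfin⟩ := hTTF 𝕜 X Y Φ hΦ nm (fun x => (hnm x).1) I e
  let W : Set I → Submodule 𝕜 (StrongDual 𝕜 X) := fun Γ => (hcl Γ).wsub
  have hW : ∀ Γ, (W Γ : Set (StrongDual 𝕜 X)) = wcl (fpart (TT Φ nm e Γ)) :=
    fun Γ => (hcl Γ).coe_wsub
  have hWm : Monotone W := by
    intro Γ Γ' h z hz
    rw [← SetLike.mem_coe, hW] at hz ⊢
    exact wcl_mono (preimage_mono (hmono h)) hz
  have hWc : ∀ Γ, IsClosed (W Γ : Set (StrongDual 𝕜 X)) := by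
    intro Γ
    rw [← closure_subset_iff_isClosed, hW]
    exact (closure_subset_wcl _).trans wcl_wcl_subset
  have hall : (hull Y : Set (StrongDual 𝕜 X)) ⊆ EE W univ := by
    intro z hz
    obtain ⟨Γ, hΓ, hzΓ⟩ := hExh 𝕜 X Y Φ hΦ c nm hc hnm I e he z hz
    refine ⟨Γ, subset_univ _, hΓ, ?_⟩
    rw [← SetLike.mem_coe, hW]
    exact hzΓ
  refine hRed 𝕜 X Y Φ hΦ (fun z => vpart (TT Φ nm e (lt3 (MM m W z)))) ?_ ?_
  · intro z _
    refine vpart_countable (hctbl _ ?_)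
    exact (hCnt 𝕜 (StrongDual 𝕜 X) I J K m W z).1.preimage Sum.inl_injective
  · intro L hL hLc hLs A U hAL hA hU hne hUA f hf hfN
    obtain ⟨S, hLS, hS⟩ := hMain 𝕜 (StrongDual 𝕜 X) I J K m W hWm hWc L hLc hLs
      (Subset.trans hL hall) A U hAL hA hU hne hUA
    refine (hcl S).separates hΦ ?_ ?_
    · refine wcl_subset_of_subset_wcl ?_ hf
      rw [← hW]
      exact hLS
    · intro x hx
      obtain ⟨F, hF, hxF⟩ := hfin S (Sum.inl x) hx
      obtain ⟨a, ha, haF⟩ := hS F hF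
      exact hfN a ha x (hmono haF hxF)

theorem mainAll : claimMain.{u, v, w} := by
  have hL : claimLink.{u} := prfLink
  have hS : claimSee.{u, w} := prfSee
  have hTP : claimTP.{u, v, w} := prfTP hL hS
  have hE : claimEEF.{u, v, w} := prfEEF
  have hC : claimCnt.{u, v, w} := prfCnt
  exact prfMain hS hE hC (prfStep hTP hE hC hS) (prfUnif hC) (prfIter hC) (prfRank hE)

/-- The extension theorem for density at most `ℵ₃`. -/
theorem aleph_three_extension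
    {𝕜 : Type v} [RCLike 𝕜] {X : Type w} [NormedAddCommGroup X] [NormedSpace 𝕜 X]
    [CompleteSpace X]
    {Y : Submodule 𝕜 (StrongDual 𝕜 X)} {Φ : Y → Set X} (hΦ : IsProjectionalGenerator Y Φ)
    (hX : ∃ s : Set X, Dense s ∧ Cardinal.mk s ≤ Cardinal.aleph 3) :
    ∃ Ψ : hull Y → Set X, IsProjectionalGenerator (hull Y) Ψ ∧
      ∀ y : Y, Ψ ⟨y, le_hull Y y.2⟩ = Φ y :=
  assemblyC prfMaps mainAll prfCnt prfRedC prfTTF (prfExh prfTTF) hΦ hX

end Pool.Agent.Work.MP_6c3bcd_an.Dn
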